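import Pool.Agent.Helper4.UpLoc.Defs

/-!
# Part C of MP_de303a_co: gluing lemma for bar representations
-/

namespace Pool.Agent.Helper31.UpLoc

open Pool.Agent.Helper4.UpLoc

/-- Compression of a lexicographic key into an integer. -/
theorem compress {A : Type} [Fintype A] (k l : A → ℤ) :
    ∃ c : A → ℤ, ∀ a b, c a < c b ↔ (k a < k b ∨ (k a = k b ∧ l a < l b)) := by
  classical
  refine ⟨fun a => ((Finset.univ.filter
    (fun b => k b < k a ∨ (k b = k a ∧ l b < l a))).card : ℤ), ?_⟩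
  intro a b
  constructor
  · intro h
    by_contra hc
    have hsub : (Finset.univ.filter (fun d => k d < k b ∨ (k d = k b ∧ l d < l b))) ⊆
        (Finset.univ.filter (fun d => k d < k a ∨ (k d = k a ∧ l d < l a))) := by
      intro d hd
      simp only [Finset.mem_filter, Finset.mem_univ, true_and] at hd ⊢
      omega
    have := Finset.card_le_card hsub
    simp only at h
    omega
  · intro h
    have hsub : (Finset.univ.filter (fun d => k d < k a ∨ (k d = k a ∧ l d < l a))) ⊂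
        (Finset.univ.filter (fun d => k d < k b ∨ (k d = k b ∧ l d < l b))) := by
      rw [Finset.ssubset_iff_of_subset]
      · refine ⟨a, ?_, ?_⟩
        · simp only [Finset.mem_filter, Finset.mem_univ, true_and]
          exact h
        · simp
      · intro d hd
        simp only [Finset.mem_filter, Finset.mem_univ, true_and] at hd ⊢
        omega
    have := Finset.card_lt_card hsub
    simp only
    omega

theorem edges_ends {V : Type} (t : Tr V) : ∀ (l u : V), ∀ e ∈ t.edges l u,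
    (e.1 ∈ t.labels ∨ e.2 ∈ t.labels) ∧ (e.1 = l ∨ e.1 = u ∨ e.1 ∈ t.labels) ∧
      (e.2 = l ∨ e.2 = u ∨ e.2 ∈ t.labels) := by
  induction t with
  | leaf => intro l u e he; simp [Tr.edges] at he
  | M v t₁ t₂ ih₁ ih₂ =>
    intro l u e he
    simp only [Tr.edges, List.mem_cons, List.mem_append] at he
    simp only [Tr.labels, List.mem_cons, List.mem_append]
    rcases he with rfl | rfl | he | he
    · simp
    · simp
    · have := ih₁ _ _ e he; tauto
    · have := ih₂ _ _ e he; tauto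
  | U v t₁ t₂ ih₁ ih₂ =>
    intro l u e he
    simp only [Tr.edges, List.mem_cons, List.mem_append] at he
    simp only [Tr.labels, List.mem_cons, List.mem_append]
    rcases he with rfl | rfl | he | he
    · simp
    · simp
    · have := ih₁ _ _ e he; tauto
    · have := ih₂ _ _ e he; tauto
  | D v t₁ t₂ ih₁ ih₂ =>
    intro l u e he
    simp only [Tr.edges, List.mem_cons, List.mem_append] at he
    simp only [Tr.labels, List.mem_cons, List.mem_append]
    rcases he with rfl | rfl | he | he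
    · simp
    · simp
    · have := ih₁ _ _ e he; tauto
    · have := ih₂ _ _ e he; tauto

/-- The abstract gluing lemma. `F` are the new edges, `Lb` the new vertices. -/
theorem glue {V : Type} [Fintype V] (E F : Set (V × V)) (Lb : Set V) (h₁ : V → ℤ)
    (x₁ : V × V → ℤ) (q w : V) (s : Bool) (h₂ : V → ℤ) (x₂ : V × V → ℤ)
    (ih1 : Set.InjOn h₁ (verts E)) (ix1 : Set.InjOn x₁ E) (up1 : ∀ e ∈ E, h₁ e.1 < h₁ e.2)
    (gE : (q, w) ∈ E) (hg : ∀ z, ¬ Cross h₁ x₁ E (q, w) z)
    (side : ∀ e ∈ E, e ≠ (q, w) → (Inc q e ∨ Inc w e) → (s = true → x₁ e < x₁ (q, w)) ∧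
      (s = false → x₁ (q, w) < x₁ e))
    (disj : ∀ z ∈ Lb, z ∉ verts E)
    (F1 : ∀ e ∈ F, e.1 ∈ Lb ∨ e.2 ∈ Lb)
    (F2 : ∀ e ∈ F, e.1 = q ∨ e.1 = w ∨ e.1 ∈ Lb)
    (F3 : ∀ e ∈ F, e.2 = q ∨ e.2 = w ∨ e.2 ∈ Lb)
    (ih2 : Set.InjOn h₂ {z | z = q ∨ z = w ∨ z ∈ Lb})
    (ix2 : Set.InjOn x₂ {e | e = (q, w) ∨ e ∈ F})
    (up2 : ∀ e, (e = (q, w) ∨ e ∈ F) → h₂ e.1 < h₂ e.2)
    (xg : ∀ e ∈ F, x₂ (q, w) < x₂ e) :
    ∃ (h : V → ℤ) (x : V × V → ℤ),
      Set.InjOn h (verts {e | e ∈ E ∨ e ∈ F}) ∧ Set.InjOn x {e | e ∈ E ∨ e ∈ F} ∧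
      (∀ e, (e ∈ E ∨ e ∈ F) → h e.1 < h e.2) ∧
      (∀ e ∈ E, ∀ z, Cross h x {e | e ∈ E ∨ e ∈ F} e z → Cross h₁ x₁ E e z) ∧
      (∀ e ∈ F, ∀ z, Cross h x {e | e ∈ E ∨ e ∈ F} e z →
        Cross h₂ x₂ {e | e = (q, w) ∨ e ∈ F} e z) ∧
      (∀ e ∈ E, ∀ e' ∈ E, x e < x e' ↔ x₁ e < x₁ e') ∧
      (∀ e ∈ F, ∀ e' ∈ E, e' ≠ (q, w) →
        (x e < x e' ↔ x₁ (q, w) < x₁ e') ∧ (x e' < x e ↔ x₁ e' < x₁ (q, w))) := by
  classical
  have qv : q ∈ verts E := ⟨_, gE, Or.inl rfl⟩
  have wv : w ∈ verts E := ⟨_, gE, Or.inr rfl⟩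
  have hqw1 : h₁ q < h₁ w := up1 _ gE
  have hqw2 : h₂ q < h₂ w := up2 _ (Or.inl rfl)
  obtain ⟨h, hh⟩ := compress
    (fun z => if z ∈ verts E then h₁ z else if h₂ z < h₂ w then h₁ q else h₁ w)
    (fun z => if z ∈ verts E then 0 else if h₂ z < h₂ w then h₂ z - h₂ q else h₂ z - h₂ w)
  obtain ⟨x, hx⟩ := compress
    (fun e => if e ∈ E then x₁ e else x₁ (q, w))
    (fun e => if e ∈ E then 0 else if s = true then x₂ e - x₂ (q, w) else x₂ (q, w) - x₂ e)
  -- basic facts
  have FnE : ∀ e ∈ F, e ∉ E := by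
    intro e he heE
    rcases F1 e he with h' | h'
    · exact disj _ h' ⟨e, heE, Or.inl rfl⟩
    · exact disj _ h' ⟨e, heE, Or.inr rfl⟩
  have FT : ∀ e ∈ F, ∀ z, Inc z e → z = q ∨ z = w ∨ z ∈ Lb := by
    rintro e he z (rfl | rfl)
    · exact F2 e he
    · exact F3 e he
  have Lnq : ∀ z ∈ Lb, h₂ z ≠ h₂ q := by
    intro z hz heq
    have : z = q := ih2 (Or.inr (Or.inr hz)) (Or.inl rfl) heq
    exact disj z hz (this ▸ qv)
  have Lnw : ∀ z ∈ Lb, h₂ z ≠ h₂ w := by
    intro z hz heq
    have : z = w := ih2 (Or.inr (Or.inr hz)) (Or.inr (Or.inl rfl)) heq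
    exact disj z hz (this ▸ wv)
  -- order of heights
  have hEE : ∀ a ∈ verts E, ∀ b ∈ verts E, h a < h b ↔ h₁ a < h₁ b := by
    intro a ha b hb
    rw [hh a b]; simp only [ha, hb, if_true]; omega
  have hEL : ∀ a ∈ verts E, ∀ b ∈ Lb, h a < h b ↔
      ((h₂ b < h₂ w ∧ (h₁ a < h₁ q ∨ h₁ a = h₁ q ∧ h₂ q < h₂ b)) ∨
       (¬ h₂ b < h₂ w ∧ (h₁ a < h₁ w ∨ h₁ a = h₁ w ∧ h₂ w < h₂ b))) := by
    intro a ha b hb
    rw [hh a b]; simp only [ha, disj b hb, if_true, if_false]; split_ifs <;> omega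
  have hLE : ∀ a ∈ verts E, ∀ b ∈ Lb, h b < h a ↔
      ((h₂ b < h₂ w ∧ (h₁ q < h₁ a ∨ h₁ a = h₁ q ∧ h₂ b < h₂ q)) ∨
       (¬ h₂ b < h₂ w ∧ (h₁ w < h₁ a ∨ h₁ a = h₁ w ∧ h₂ b < h₂ w))) := by
    intro a ha b hb
    rw [hh b a]; simp only [ha, disj b hb, if_true, if_false]; split_ifs <;> omega
  have hLL : ∀ a ∈ Lb, ∀ b ∈ Lb, h a < h b ↔ h₂ a < h₂ b := by
    intro a ha b hb
    have h1 := Lnw a ha
    have h2 := Lnw b hb
    rw [hh a b]; simp only [disj a ha, disj b hb, if_false]; split_ifs <;> omega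
  have hT : ∀ a, (a = q ∨ a = w ∨ a ∈ Lb) → ∀ b, (b = q ∨ b = w ∨ b ∈ Lb) →
      (h a < h b ↔ h₂ a < h₂ b) := by
    intro a ha b hb
    have e1 := hEE q qv q qv
    have e2 := hEE q qv w wv
    have e3 := hEE w wv q qv
    have e4 := hEE w wv w wv
    rcases ha with rfl | rfl | ha <;> rcases hb with rfl | rfl | hb
    · omega
    · omega
    · have := hEL a qv b hb
      have h1 := Lnq b hb
      have h2 := Lnw b hb
      omega
    · omega
    · omega
    · have := hEL a wv b hb
      have h1 := Lnq b hb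
      have h2 := Lnw b hb
      omega
    · have := hLE b qv a ha
      have h1 := Lnq a ha
      have h2 := Lnw a ha
      omega
    · have := hLE b wv a ha
      have h1 := Lnq a ha
      have h2 := Lnw a ha
      omega
    · exact hLL a ha b hb
  -- order of the x coordinates
  have xEE : ∀ a ∈ E, ∀ b ∈ E, x a < x b ↔ x₁ a < x₁ b := by
    intro a ha b hb
    rw [hx a b]; simp only [ha, hb, if_true]; omega
  have xEF : ∀ a ∈ E, ∀ b ∈ F, x a < x b ↔ (x₁ a < x₁ (q, w) ∨ x₁ a = x₁ (q, w) ∧ s = true) := by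
    intro a ha b hb
    have h1 := xg b hb
    rw [hx a b]; simp only [ha, FnE b hb, if_true, if_false]
    cases s <;> simp <;> omega
  have xFE : ∀ a ∈ E, ∀ b ∈ F, x b < x a ↔
      (x₁ (q, w) < x₁ a ∨ x₁ a = x₁ (q, w) ∧ s = false) := by
    intro a ha b hb
    have h1 := xg b hb
    rw [hx b a]; simp only [ha, FnE b hb, if_true, if_false]
    cases s <;> simp <;> omega
  have xFF : ∀ a ∈ F, ∀ b ∈ F, x a < x b ↔
      ((s = true ∧ x₂ a < x₂ b) ∨ (s = false ∧ x₂ b < x₂ a)) := by
    intro a ha b hb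
    rw [hx a b]; simp only [FnE a ha, FnE b hb, if_false]
    cases s <;> simp
  refine ⟨h, x, ?_, ?_, ?_, ?_, ?_, xEE, ?_⟩
  · -- injectivity of h
    have hv : ∀ z ∈ verts {e | e ∈ E ∨ e ∈ F}, z ∈ verts E ∨ z ∈ Lb := by
      rintro z ⟨e, he | he, hz⟩
      · exact Or.inl ⟨e, he, hz⟩
      · rcases FT e he z hz with rfl | rfl | h'
        · exact Or.inl qv
        · exact Or.inl wv
        · exact Or.inr h'
    intro a ha b hb hab
    rcases hv a ha with ha | ha <;> rcases hv b hb with hb | hb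
    · have h1 := hEE a ha b hb
      have h2 := hEE b hb a ha
      exact ih1 ha hb (by omega)
    · exfalso
      have h1 := hEL a ha b hb
      have h2 := hLE a ha b hb
      have h3 := Lnq b hb
      have h4 := Lnw b hb
      omega
    · exfalso
      have h1 := hEL b hb a ha
      have h2 := hLE b hb a ha
      have h3 := Lnq a ha
      have h4 := Lnw a ha
      omega
    · have h1 := hLL a ha b hb
      have h2 := hLL b hb a ha
      exact ih2 (Or.inr (Or.inr ha)) (Or.inr (Or.inr hb)) (by omega)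
  · -- injectivity of x
    intro a ha b hb hab
    rcases ha with ha | ha <;> rcases hb with hb | hb
    · have h1 := xEE a ha b hb
      have h2 := xEE b hb a ha
      exact ix1 ha hb (by omega)
    · exfalso
      have h1 := xEF a ha b hb
      have h2 := xFE a ha b hb
      cases s <;> simp at h1 h2 <;> omega
    · exfalso
      have h1 := xEF b hb a ha
      have h2 := xFE b hb a ha
      cases s <;> simp at h1 h2 <;> omega
    · have h1 := xFF a ha b hb
      have h2 := xFF b hb a ha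
      exact ix2 (Or.inr ha) (Or.inr hb) (by cases s <;> simp at h1 h2 <;> omega)
  · -- upward
    rintro e (he | he)
    · exact (hEE _ ⟨e, he, Or.inl rfl⟩ _ ⟨e, he, Or.inr rfl⟩).2 (up1 e he)
    · exact (hT _ (F2 e he) _ (F3 e he)).2 (up2 e (Or.inr he))
  · -- crossings on an old edge
    rintro e he z ⟨hz1, hz2, hlo, hhi, e₁, he₁, e₂, he₂, i₁, i₂, l₁, l₂⟩
    by_cases hzL : z ∈ Lb
    · exfalso
      have f₁ : e₁ ∈ F := by
        rcases he₁ with h' | h'
        · exact absurd ⟨e₁, h', i₁⟩ (disj z hzL)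
        · exact h'
      have f₂ : e₂ ∈ F := by
        rcases he₂ with h' | h'
        · exact absurd ⟨e₂, h', i₂⟩ (disj z hzL)
        · exact h'
      have a1 := (xFE e he e₁ f₁).1 l₁
      have a2 := (xEF e he e₂ f₂).1 l₂
      cases s <;> simp at a1 a2 <;> omega
    · have hzv : z ∈ verts E := by
        rcases he₁ with h' | h'
        · exact ⟨e₁, h', i₁⟩
        · rcases FT e₁ h' z i₁ with rfl | rfl | h''
          · exact qv
          · exact wv
          · exact absurd h'' hzL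
      refine ⟨hz1, hz2, (hEE _ ⟨e, he, Or.inl rfl⟩ _ hzv).1 hlo,
        (hEE _ hzv _ ⟨e, he, Or.inr rfl⟩).1 hhi, ?_⟩
      -- replacing
      have rep : ∀ e' , e' ∈ F → Inc z e' → Inc z (q, w) ∧ e ≠ (q, w) := by
        intro e' he' hi
        have : Inc z (q, w) := by
          rcases FT e' he' z hi with rfl | rfl | h''
          · exact Or.inl rfl
          · exact Or.inr rfl
          · exact absurd h'' hzL
        refine ⟨this, ?_⟩
        rintro rfl
        rcases this with h' | h'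
        · exact hz1 h'
        · exact hz2 h'
      have r₁ : ∃ e₁ ∈ E, Inc z e₁ ∧ x₁ e₁ < x₁ e := by
        rcases he₁ with h' | h'
        · exact ⟨e₁, h', i₁, (xEE _ h' _ he).1 l₁⟩
        · obtain ⟨r1, r2⟩ := rep e₁ h' i₁
          refine ⟨(q, w), gE, r1, ?_⟩
          rcases (xFE e he e₁ h').1 l₁ with h'' | ⟨h'', -⟩
          · exact h''
          · exact absurd (ix1 he gE h'') r2
      have r₂ : ∃ e₂ ∈ E, Inc z e₂ ∧ x₁ e < x₁ e₂ := by
        rcases he₂ with h' | h'
        · exact ⟨e₂, h', i₂, (xEE _ he _ h').1 l₂⟩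
        · obtain ⟨r1, r2⟩ := rep e₂ h' i₂
          refine ⟨(q, w), gE, r1, ?_⟩
          rcases (xEF e he e₂ h').1 l₂ with h'' | ⟨h'', -⟩
          · exact h''
          · exact absurd (ix1 he gE h'') r2
      obtain ⟨a, b, c, d⟩ := r₁
      obtain ⟨a', b', c', d'⟩ := r₂
      exact ⟨a, b, a', b', c, c', d, d'⟩
  · -- crossings on a new edge
    rintro e he z ⟨hz1, hz2, hlo, hhi, e₁, he₁, e₂, he₂, i₁, i₂, l₁, l₂⟩
    by_cases hzT : z = q ∨ z = w ∨ z ∈ Lb
    · refine ⟨hz1, hz2, (hT _ (F2 e he) _ hzT).1 hlo, (hT _ hzT _ (F3 e he)).1 hhi, ?_⟩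
      have hzi : ∀ e' ∈ E, Inc z e' → Inc z (q, w) ∧ (Inc q e' ∨ Inc w e') := by
        intro e' he' hi
        rcases hzT with rfl | rfl | h'
        · exact ⟨Or.inl rfl, Or.inl hi⟩
        · exact ⟨Or.inr rfl, Or.inr hi⟩
        · exact absurd ⟨e', he', hi⟩ (disj z h')
      cases s with
      | true =>
        have f₂ : e₂ ∈ F := by
          rcases he₂ with h' | h'
          · exfalso
            obtain ⟨-, r⟩ := hzi e₂ h' i₂
            have a1 := (xFE e₂ h' e he).1 l₂
            simp at a1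
            have hne : e₂ ≠ (q, w) := by rintro rfl; omega
            have := (side e₂ h' hne r).1 rfl
            omega
          · exact h'
        have a2 := (xFF e he e₂ f₂).1 l₂
        simp at a2
        rcases he₁ with h' | h'
        · exact ⟨(q, w), Or.inl rfl, e₂, Or.inr f₂, (hzi e₁ h' i₁).1, i₂, xg e he, a2⟩
        · have a1 := (xFF e₁ h' e he).1 l₁
          simp at a1
          exact ⟨e₁, Or.inr h', e₂, Or.inr f₂, i₁, i₂, a1, a2⟩
      | false =>
        have f₁ : e₁ ∈ F := by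
          rcases he₁ with h' | h'
          · exfalso
            obtain ⟨-, r⟩ := hzi e₁ h' i₁
            have a1 := (xEF e₁ h' e he).1 l₁
            simp at a1
            have hne : e₁ ≠ (q, w) := by rintro rfl; omega
            have := (side e₁ h' hne r).2 rfl
            omega
          · exact h'
        have a1 := (xFF e₁ f₁ e he).1 l₁
        simp at a1
        rcases he₂ with h' | h'
        · exact ⟨(q, w), Or.inl rfl, e₁, Or.inr f₁, (hzi e₂ h' i₂).1, i₁, xg e he, a1⟩
        · have a2 := (xFF e he e₂ h').1 l₂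
          simp at a2
          exact ⟨e₂, Or.inr h', e₁, Or.inr f₁, i₂, i₁, a2, a1⟩
    · exfalso
      have hzq : z ≠ q := fun h' => hzT (Or.inl h')
      have hzw : z ≠ w := fun h' => hzT (Or.inr (Or.inl h'))
      have g₁ : e₁ ∈ E := by
        rcases he₁ with h' | h'
        · exact h'
        · exact absurd (FT e₁ h' z i₁) hzT
      have g₂ : e₂ ∈ E := by
        rcases he₂ with h' | h'
        · exact h'
        · exact absurd (FT e₂ h' z i₂) hzT
      have n₁ : e₁ ≠ (q, w) := by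
        rintro rfl
        rcases i₁ with h' | h'
        · exact hzq h'
        · exact hzw h'
      have n₂ : e₂ ≠ (q, w) := by
        rintro rfl
        rcases i₂ with h' | h'
        · exact hzq h'
        · exact hzw h'
      have hzv : z ∈ verts E := ⟨e₁, g₁, i₁⟩
      have hzq' : h₁ z ≠ h₁ q := fun h' => hzq (ih1 hzv qv h')
      have hzw' : h₁ z ≠ h₁ w := fun h' => hzw (ih1 hzv wv h')
      refine hg z ⟨hzq, hzw, ?_, ?_, e₁, g₁, e₂, g₂, i₁, i₂, ?_, ?_⟩
      · show h₁ q < h₁ z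
        rcases F2 e he with h' | h' | h'
        · rw [h'] at hlo
          have := (hEE _ qv _ hzv).1 hlo
          exact this
        · rw [h'] at hlo
          have := (hEE _ wv _ hzv).1 hlo
          omega
        · have := (hLE z hzv e.1 h').1 hlo
          omega
      · show h₁ z < h₁ w
        rcases F3 e he with h' | h' | h'
        · rw [h'] at hhi
          have := (hEE _ hzv _ qv).1 hhi
          omega
        · rw [h'] at hhi
          have := (hEE _ hzv _ wv).1 hhi
          exact this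
        · have := (hEL z hzv e.2 h').1 hhi
          omega
      · rcases (xEF e₁ g₁ e he).1 l₁ with h' | ⟨h', -⟩
        · exact h'
        · exact absurd (ix1 g₁ gE h') n₁
      · rcases (xFE e₂ g₂ e he).1 l₂ with h' | ⟨h', -⟩
        · exact h'
        · exact absurd (ix1 g₂ gE h') n₂
  · -- mixed order
    intro e he e' he' hne
    have hne' : x₁ e' ≠ x₁ (q, w) := fun h' => hne (ix1 he' gE h')
    have a1 := xEF e' he' e he
    have a2 := xFE e' he' e he
    constructor
    · rw [a2]; constructor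
      · rintro (h' | ⟨h', -⟩)
        · exact h'
        · exact absurd h' hne'
      · exact Or.inl
    · rw [a1]; constructor
      · rintro (h' | ⟨h', -⟩)
        · exact h'
        · exact absurd h' hne'
      · exact Or.inl

theorem partC : PartC := by
  intro V _ _ E h₁ x₁ g s t h₂ x₂ ih1 ix1 up1 gE hg side _ disj ih2 ix2 up2 xg
  obtain ⟨q, w⟩ := g
  have hl : {z | z ∈ (q, w).1 :: (q, w).2 :: t.labels} = {z | z = q ∨ z = w ∨ z ∈ t.labels} := by
    ext z; simp
  rw [hl] at ih2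
  obtain ⟨h, x, r⟩ := glue E {e | e ∈ t.edges q w} {z | z ∈ t.labels} h₁ x₁ q w s h₂ x₂
    ih1 ix1 up1 gE hg side disj
    (fun e he => (edges_ends t q w e he).1)
    (fun e he => (edges_ends t q w e he).2.1)
    (fun e he => (edges_ends t q w e he).2.2)
    ih2 ix2 up2 xg
  exact ⟨h, x, r⟩

end Pool.Agent.Helper31.UpLoc
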